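import Pool.Agent.N976.UA.X
import Pool.Agent.N976.UE.Main2
import Pool.Agent.N976.AX.A5

/-! Energy concentration for axisymmetric fields without force. -/

open Set Filter Topology MeasureTheory
open scoped ContDiff InnerProductSpace

set_option autoImplicit false

namespace Pool.Agent.N976.AX

open Pool.Agent.N976.SC Pool.Agent.N976.EN Pool.Agent.N976.UE
open Pool.Agent.N976.UE.Main

theorem rot_neg_rot (α : ℝ) (y : E3) : rot (-α) (rot α y) = y := by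
  have h := Real.sin_sq_add_cos_sq α
  ext i
  fin_cases i
  · simp [rot]
    linear_combination (y 0) * h
  · simp [rot]
    linear_combination (y 1) * h
  · simp [rot]

/-- The rotation as an equivalence. -/
noncomputable def rotE (α : ℝ) : E3 ≃L[ℝ] E3 :=
  ContinuousLinearEquiv.equivOfInverse (A5.rotL α) (A5.rotL (-α))
    (fun y => rot_neg_rot α y) (fun y => by
      have := rot_neg_rot (-α) y
      rwa [neg_neg] at this)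

/-- Sums of axisymmetric packets. -/
theorem sp_axi {P : ℕ → E3 → E3} (h : ∀ n, Axi (P n)) (a : ℕ → ℝ) : Axi (sp P a) := by
  intro α y
  unfold sp
  show _ = rotE α (∑' n, a n • P n y)
  rw [(rotE α).map_tsum]
  refine tsum_congr fun n => ?_
  rw [map_smul, h n α y]
  rfl

/-- The data for all viscosities. -/
theorem packA (hX : S_XA) (hY3 : S_Y3) (hY4 : S_Y4) (hY5 : S_Y5) (hZ0 : S_Z0) (hZ1 : S_Z1)
    (hZ2 : S_Z2) (hZ3 : S_Z3) (ε R₀ : ℝ) (hε : 0 < ε) :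
    ∃ (Q T₀ β lam ε₁ N : ℝ) (Λ b V γ : ℕ → ℝ) (P : ℕ → E3 → E3) (P' : E3 → E3)
      (r : Fin 4 × ℕ → E3 → E3), 0 < ε₁ ∧ ε₁ ≤ 1 / 8 ∧ 8 * ε₁ ≤ ε ∧ 4 ≤ Q ∧
      R₀ ≤ Q ^ (5 / 3 : ℝ) ∧ 1 < Q ^ (5 / 3 : ℝ) ∧ 0 < T₀ ∧
      ContDiff ℝ ∞ P' ∧ (∀ y, 1 / 2 ≤ ‖y‖ → P' y = 0) ∧ (∀ y, divg P' y = 0) ∧ 0 < ip P' P' ∧
      (∀ n, Axi (P n)) ∧ Axi P' ∧ (∀ p, Axi (r p)) ∧ (∃ y, swirl P' y ≠ 0) ∧
      (∀ p, ContDiff ℝ ∞ (r p)) ∧
      (∀ i n y, 1 ≤ (Q ^ (5 / 3 : ℝ)) ^ ((6 / 5 : ℝ) ^ n) * ‖y‖ → r (i, n) y = 0) ∧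
      ∀ ν : ℝ, 0 < ν → ∃ (A : ℝ) (X : ℕ → ℝ → ℝ),
        Fu ε₁ ν β lam N (qs Q) Λ b V γ P r (T₀ / ν) A X ∧ ∀ y, gU P X 0 y = ν • P' y := by
  obtain ⟨Q₁, β, lam, N, hX⟩ := hX
  obtain ⟨ε₁, he1, he2, he3⟩ : ∃ ε₁ : ℝ, 0 < ε₁ ∧ ε₁ ≤ 1 / 8 ∧ 8 * ε₁ ≤ ε :=
    ⟨min (1 / 8) (ε / 8), by positivity, min_le_left _ _, by
      have := min_le_right (1 / 8 : ℝ) (ε / 8); linarith⟩
  obtain ⟨Q₀, hY⟩ := hY3 ε₁ he1
  obtain ⟨Q, hQ⟩ : ∃ Q, Q = max (max Q₀ Q₁) (max (4 ^ 5) R₀) := ⟨_, rfl⟩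
  have q1 : Q₀ ≤ Q := by rw [hQ]; exact (le_max_left _ _).trans (le_max_left _ _)
  have q2 : Q₁ ≤ Q := by rw [hQ]; exact (le_max_right _ _).trans (le_max_left _ _)
  have q3 : 4 ^ 5 ≤ Q := by rw [hQ]; exact (le_max_left _ _).trans (le_max_right _ _)
  have q5 : R₀ ≤ Q := by rw [hQ]; exact (le_max_right _ _).trans (le_max_right _ _)
  have hQ4 : 4 ≤ Q := by linarith
  have hQ1 : 1 ≤ Q := by linarith
  have hQ0 : 0 < Q := by linarith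
  obtain ⟨Λ, b, V, γ, P, r, hC, hT, hAP, hAr, hs0, hs1⟩ := hX Q q2
  obtain ⟨T, σ, x, hI⟩ := hY4 ε₁ Q Λ b V γ (by linarith) he1 hC (hY Q q1 Λ b V γ hC)
  have hS := hY5 ε₁ Q T Λ b V γ σ x (by linarith) hC hI
  have hg4 : ∀ n, 4 ≤ qs Q n := fun n => hQ4.trans (Core.qs_ge hQ1 n)
  have hst : ∀ n, 4 * qs Q n ≤ qs Q (n + 1) := Core.qs_step (by norm_num) hQ1 q3
  have hβ := hT.β0
  have hlam := hT.lam0
  have hT0 := hI.T0
  have hRQ : Q ≤ Q ^ (5 / 3 : ℝ) := by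
    calc Q = Q ^ (1 : ℝ) := (Real.rpow_one Q).symm
      _ ≤ Q ^ (5 / 3 : ℝ) := Real.rpow_le_rpow_of_exponent_le hQ1 (by norm_num)
  have hFu : ∀ ν : ℝ, 0 < ν → Fu ε₁ ν β lam N (qs Q) Λ b V γ P r (T / lam / ν) (ν * lam / β)
      (fun n t => ν * lam / β * x n (ν * lam * t)) := by
    intro ν hν
    have h2 := hZ0 ε₁ ν β lam N T (qs Q) Λ b V γ P r σ x he1 hν hT hC hg4 hst hI hS
    have e : T / lam / ν = T / (ν * lam) := by rw [div_div, mul_comm lam ν]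
    rw [e]
    exact h2
  have hini : ∀ ν : ℝ, 0 < ν → ∀ y, gU P (fun n t => ν * lam / β * x n (ν * lam * t)) 0 y =
      ν • ((lam / β) • (P 0 y + rr (qs Q) 0 • P 1 y)) := by
    intro ν hν y
    unfold gU
    have h3 : ∀ n, ν * lam / β * x (n + 2) (ν * lam * 0) = 0 := by
      intro n
      rw [mul_zero, hI.ini n, mul_zero]
    rw [sp_two P (fun n => ν * lam / β * x n (ν * lam * 0)) h3]
    simp only [mul_zero, hI.ini0, hI.ini1, mul_one, smul_add, smul_smul]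
    congr 2 <;> ring
  have hout : ∀ n y, 1 / 2 ≤ ‖y‖ → P n y = 0 := fun n y hy => by
    apply hT.out
    have := hg4 n
    nlinarith
  have hsmP : ContDiff ℝ ∞ (fun y => (lam / β) • (P 0 y + rr (qs Q) 0 • P 1 y)) :=
    T4.cd_sm ((hT.sm 0).add (T4.cd_sm (hT.sm 1) _)) _
  refine ⟨Q, T / lam, β, lam, ε₁, N, Λ, b, V, γ, P,
    fun y => (lam / β) • (P 0 y + rr (qs Q) 0 • P 1 y), r, he1, he2, he3, hQ4, q5.trans hRQ,
    by linarith, by positivity, hsmP, ?_, ?_, ?_, hAP,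
    A4s.Axi.smul (A4s.Axi.add (hAP 0) (A4s.Axi.smul (hAP 1) _)) _, hAr, ?_, hT.rsm, ?_, ?_⟩
  · intro y hy
    simp only [hout 0 y hy, hout 1 y hy, smul_zero, add_zero]
  · intro y
    have h1 := hFu 1 one_pos
    have h2 := (sol hZ1 hZ2 hZ3 h1).div 0 ⟨le_rfl, h1.T0⟩ y
    have e : gU P (fun n t => 1 * lam / β * x n (1 * lam * t)) 0 =
        fun y => (lam / β) • (P 0 y + rr (qs Q) 0 • P 1 y) := by
      ext1 y
      rw [hini 1 one_pos y, one_smul]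
    rwa [e] at h2
  · have h1 := hFu 1 one_pos
    have h2 := ((energy hZ1 hZ2 hZ3 h1).1 0 ⟨le_rfl, h1.T0⟩).1
    have e : gU P (fun n t => 1 * lam / β * x n (1 * lam * t)) 0 =
        fun y => (lam / β) • (P 0 y + rr (qs Q) 0 • P 1 y) := by
      ext1 y
      rw [hini 1 one_pos y, one_smul]
    rw [e] at h2
    have hN := hT.N0
    have hA := h1.A0
    have : 0 < (1 - ε₁) * (N * (1 * lam / β) ^ 2) := by
      have : 0 < 1 - ε₁ := by linarith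
      positivity
    linarith
  · obtain ⟨y, hy⟩ := hs1
    refine ⟨y, ?_⟩
    have h1 := hs0 y
    have hrr : 0 < UE.rr (qs Q) 0 := by
      unfold UE.rr
      have := hg4 0
      positivity
    unfold swirl at *
    simp only [PiLp.smul_apply, PiLp.add_apply, smul_eq_mul]
    intro h2
    have h3 : lam / β * UE.rr (qs Q) 0 * (y 0 * P 1 y 1 - y 1 * P 1 y 0) = 0 := by
      linear_combination h2 - lam / β * h1
    rcases mul_eq_zero.1 h3 with h4 | h4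
    · have : lam / β * UE.rr (qs Q) 0 ≠ 0 := by positivity
      exact this h4
    · exact hy h4
  · intro i n y hy
    rcases n with _ | n
    · apply hT.rout0
      rw [pow_zero, Real.rpow_one] at hy
      have h1 : qs Q 0 = Q := by unfold qs; simp
      rw [h1]
      have h2 : Q ^ (5 / 3 : ℝ) ≤ Q ^ 2 := by
        rw [← Real.rpow_natCast]
        exact Real.rpow_le_rpow_of_exponent_le hQ1 (by norm_num)
      nlinarith [norm_nonneg y]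
    · apply hT.rout
      rw [Core.qs_sq hQ0] at hy
      exact hy
  · intro ν hν
    exact ⟨ν * lam / β, fun n t => ν * lam / β * x n (ν * lam * t), hFu ν hν, hini ν hν⟩

theorem mainA (hX : S_XA) (hY3 : S_Y3) (hY4 : S_Y4) (hY5 : S_Y5) (hZ0 : S_Z0) (hZ1 : S_Z1)
    (hZ2 : S_Z2) (hZ3 : S_Z3) (hZ6 : S_Z6) (ε R₀ : ℝ) (hε : 0 < ε) :
    ∃ (R T₀ : ℝ) (P : E3 → E3) (r : Fin 4 × ℕ → E3 → E3),
      R₀ ≤ R ∧ 1 < R ∧ 0 < T₀ ∧
      ContDiff ℝ ∞ P ∧ (∀ y, 1 ≤ ‖y‖ → P y = 0) ∧ (∀ y, divg P y = 0) ∧ 0 < ip P P ∧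
      Axi P ∧ (∀ p, Axi (r p)) ∧ (∃ y, swirl P y ≠ 0) ∧
      (∀ p, ContDiff ℝ ∞ (r p)) ∧
      (∀ i n y, 1 ≤ R ^ ((6 / 5 : ℝ) ^ n) * ‖y‖ → r (i, n) y = 0) ∧
      ∀ ν : ℝ, 0 < ν → ∃ (u : ℝ → E3 → E3) (l : Fin 4 × ℕ → ℝ → ℝ),
        SolF ν r (fun _ _ => 0) (T₀ / ν) u ∧
        (∀ y, u 0 y = ν • P y) ∧ (∀ t ∈ Ico 0 (T₀ / ν), Axi (u t)) ∧
        ContDiffOn ℝ ∞ (fun z : ℝ × E3 => u z.1 z.2) (Ico 0 (T₀ / ν) ×ˢ univ) ∧
        (∀ t ∈ Ico 0 (T₀ / ν), ∀ y, 1 ≤ ‖y‖ → u t y = 0) ∧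
        (∀ p, ContDiffOn ℝ ∞ (l p) (Ico 0 (T₀ / ν))) ∧
        (∀ k : ℕ, ∀ T' < T₀ / ν, ∃ M, ∀ t ∈ Icc 0 T', ∀ i n,
          (R ^ ((6 / 5 : ℝ) ^ n)) ^ k * |l (i, n) t| ≤ M) ∧
        (∀ t ∈ Ico 0 (T₀ / ν), ∀ y, HasSum (fun p => l p t • r p y)
          (dt (T₀ / ν) u t y + adv (u t) (u t) y - ν • lap (u t) y)) ∧
        (∀ (T' : ℝ) (v : ℝ → E3 → E3), 0 < T' →
          SolF ν r (fun _ _ => 0) T' v → v 0 = u 0 →
          T' ≤ T₀ / ν ∧ ∀ t ∈ Ico 0 T', v t = u t) ∧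
        (∀ t ∈ Ico 0 (T₀ / ν), IntervalIntegrable (fun s => dir (u s)) volume 0 t ∧
          ip (u t) (u t) + 2 * (ν * ∫ s in (0 : ℝ)..t, dir (u s)) = ip (u 0) (u 0) ∧
          (1 - ε) * ip (u 0) (u 0) ≤ ip (u t) (u t)) ∧
        ∀ δ > 0, ∃ t₀ < T₀ / ν, ∀ t ∈ Ico t₀ (T₀ / ν), 0 ≤ t →
          ∫ y in {y : E3 | δ ≤ ‖y‖}, ‖u t y‖ ^ 2 ≤ ε * ip (u 0) (u 0) := by
  obtain ⟨Q, T₀, β, lam, ε₁, N, Λ, b, V, γ, P, P', r, he1, he2, he3, hQ4, hR, hR1, hT0, hP, hPo,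
    hPd, hPn, hAP, hAP', hAr, hsw, hr, hro, h⟩ := packA hX hY3 hY4 hY5 hZ0 hZ1 hZ2 hZ3 ε R₀ hε
  refine ⟨Q ^ (5 / 3 : ℝ), T₀, P', r, hR, hR1, hT0, hP, fun y hy => hPo y (by linarith), hPd,
    hPn, hAP', hAr, hsw, hr, hro, fun ν hν => ?_⟩
  obtain ⟨A, X, hD, hu0⟩ := h ν hν
  have hsol := sol hZ1 hZ2 hZ3 hD
  have hfl := flow hZ1 hZ2 hZ3 hD
  obtain ⟨e1, e2, e3⟩ := energy hZ1 hZ2 hZ3 hD
  obtain ⟨-, g2, -⟩ := hZ1 (T₀ / ν) (qs Q) Λ b V γ β lam N P r X hD.T0 hD.tab hD.q2 hD.qq hD.smr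
  obtain ⟨l1, l2⟩ := hZ6 ν Q (T₀ / ν) Λ b V γ X hQ4 hD.T0 hD.cf hD.smr
  have hN := hD.tab.N0
  have hA := hD.A0
  have hE : 0 < N * A ^ 2 := by positivity
  have e0 := e1 0 ⟨le_rfl, hD.T0⟩
  have hQ0 : 0 < Q := by linarith
  have hax : ∀ t ∈ Ico 0 (T₀ / ν), Axi (gU P X t) := fun t ht => sp_axi hAP _
  -- the constraint fields
  have hrc : ∀ p, Continuous (r p) := fun p => (hr p).continuous
  have hr1 : ∀ p y, 1 ≤ ‖y‖ → r p y = 0 := by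
    rintro ⟨i, n⟩ y hy
    apply hro
    have : (1 : ℝ) ≤ (Q ^ (5 / 3 : ℝ)) ^ ((6 / 5 : ℝ) ^ n) :=
      Real.one_le_rpow hR1.le (by positivity)
    nlinarith
  have hcs : ∀ v : E3 → E3, (∀ y, 1 ≤ ‖y‖ → v y = 0) → HasCompactSupport v := by
    intro v hv
    refine HasCompactSupport.of_support_subset_isCompact (isCompact_closedBall 0 1) ?_
    intro y hy
    rw [Metric.mem_closedBall, dist_zero_right]
    by_contra h
    exact hy (hv y (not_le.1 h).le)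
  have hmax := t_K4 (Fin 4 × ℕ) ν (T₀ / ν) ((1 - ε₁) * (N * A ^ 2)) r (fun _ _ => 0) (gU P X)
    hν.le hD.T0 (by nlinarith) hrc (fun p => hcs _ (hr1 p)) (fun _ => continuous_const)
    (fun _ => HasCompactSupport.zero) hsol (fun t ht => (e1 t ht).1)
    (fun δ hδ => by
      obtain ⟨t₀, h1, h2⟩ := e3 δ hδ
      refine ⟨t₀, h1, fun t ht h0 => (h2 t ht h0).trans ?_⟩
      have : 4 * ε₁ ^ 2 ≤ (1 - ε₁) / 2 := by nlinarith
      nlinarith)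
  refine ⟨gU P X, fun p t => ly ν Λ (fun n => X n t) p, hsol, hu0, hax, hfl.sm,
    fun t ht y hy => (g2 t ht).1 y (by linarith), l1, ?_, ?_, hmax, ?_, ?_⟩
  · intro k T' hT'
    obtain ⟨M, hM⟩ := l2 (2 * k) T' hT'
    refine ⟨M, fun t ht i n => le_trans ?_ (hM t ht i n)⟩
    refine mul_le_mul_of_nonneg_right ?_ (abs_nonneg _)
    have hq1 : 1 ≤ qs Q n := (by linarith : (1 : ℝ) ≤ Q).trans (Core.qs_ge (by linarith) n)
    have e : (Q ^ (5 / 3 : ℝ)) ^ ((6 / 5 : ℝ) ^ n) = qs Q n ^ (5 / 3 : ℝ) := by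
      unfold qs
      rw [← Real.rpow_mul hQ0.le, ← Real.rpow_mul hQ0.le, mul_comm]
    rw [e, pow_mul]
    refine pow_le_pow_left₀ (by positivity) ?_ k
    rw [← Real.rpow_natCast]
    exact Real.rpow_le_rpow_of_exponent_le hq1 (by norm_num)
  · intro t ht y
    exact (resid hZ1 hZ2 hD ht).1 y
  · intro t ht
    obtain ⟨k1, k2⟩ := e2 t ht
    have k3 := e1 t ht
    refine ⟨k1, by linarith, ?_⟩
    have h0 : 0 ≤ ip (gU P X 0) (gU P X 0) := by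
      refine le_trans ?_ e0.1
      have : 0 ≤ 1 - ε₁ := by linarith
      positivity
    have a1 : (1 - ε) * ip (gU P X 0) (gU P X 0) ≤ (1 - 8 * ε₁) * ip (gU P X 0) (gU P X 0) :=
      mul_le_mul_of_nonneg_right (by linarith) h0
    have a2 : (1 - 8 * ε₁) * ip (gU P X 0) (gU P X 0) ≤
        (1 - 8 * ε₁) * ((1 + ε₁) * (N * A ^ 2)) :=
      mul_le_mul_of_nonneg_left e0.2 (by linarith)
    have a3 : (1 - 8 * ε₁) * ((1 + ε₁) * (N * A ^ 2)) ≤ (1 - ε₁) * (N * A ^ 2) := by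
      rw [← mul_assoc]
      refine mul_le_mul_of_nonneg_right ?_ hE.le
      nlinarith
    linarith [k3.1]
  · intro δ hδ
    obtain ⟨t₀, h1, h2⟩ := e3 δ hδ
    refine ⟨t₀, h1, fun t ht h0 => (h2 t ht h0).trans ?_⟩
    have : 4 * ε₁ ^ 2 ≤ ε * (1 - ε₁) := by nlinarith
    nlinarith

end Pool.Agent.N976.AX
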